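import Pool.Agent.Helper27.UC.Goals6

set_option autoImplicit false

namespace Pool.Agent.Helper24.UC.EMN

open Pool.Agent.Helper27.UC

theorem aux (m b : ℕ) (L : Multiset ℕ) (h : ∀ v ∈ L, v ≤ m ∧ m ≤ v + b) :
    (L.map fun v => v ^ 2).sum + Multiset.card L * m ^ 2 ≤ 2 * m * L.sum + Multiset.card L * b ^ 2 ∧
      Multiset.card L * m ≤ L.sum + Multiset.card L * b := by
  induction L using Multiset.induction with
  | empty => simp
  | cons v L ih =>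
    have hv := h v (Multiset.mem_cons_self v L)
    have ih2 := ih (fun w hw => h w (Multiset.mem_cons_of_mem hw))
    simp only [Multiset.map_cons, Multiset.sum_cons, Multiset.card_cons]
    obtain ⟨e, he⟩ := Nat.exists_eq_add_of_le hv.1
    have heb : e ≤ b := by omega
    have h1 : v ^ 2 + m ^ 2 ≤ 2 * m * v + b ^ 2 := by
      subst he
      have : e ^ 2 ≤ b ^ 2 := Nat.pow_le_pow_left heb 2
      nlinarith
    constructor
    · have := ih2.1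
      nlinarith
    · have := ih2.2
      have h2 := hv.2
      nlinarith

theorem t : S_EMN := by
  intro n m b q d j s L hHN hns hs hd
  obtain ⟨hc, hv, _, h10, _, hb, hm⟩ := hHN
  obtain ⟨h1, h2⟩ := aux m b L hv
  rw [hc] at h1 h2
  set Q := (L.map fun v => v ^ 2).sum with hQ
  set M := L.sum with hM
  have h1' : (Q : ℝ) + n * m ^ 2 ≤ 2 * m * M + n * b ^ 2 := by exact_mod_cast h1
  have h2' : (n : ℝ) * m ≤ M + n * b := by exact_mod_cast h2
  have h10' : (10 : ℝ) ^ 10 ≤ n := by exact_mod_cast h10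
  have hb' : 10000 * (b : ℝ) ≤ n := by exact_mod_cast hb
  have hm' : (n : ℝ) ^ 5 ≤ m := by exact_mod_cast hm
  have hs' : 25 * (s : ℝ) ^ 2 ≤ n := by exact_mod_cast hs
  have hns' : (n : ℝ) = 4 * j + s := by exact_mod_cast hns
  have hd' : (d : ℝ) * (d + 1) < Q + M := by exact_mod_cast hd
  have hn0 : (0 : ℝ) ≤ n := by positivity
  have hb0 : (0 : ℝ) ≤ b := by positivity
  have hbn : (b : ℝ) ≤ n := by linarith
  have hM1 : (n : ℝ) ^ 6 - n ^ 2 ≤ M := by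
    have h3 : (n : ℝ) * n ^ 5 ≤ n * m := mul_le_mul_of_nonneg_left hm' hn0
    have h4 : (n : ℝ) * b ≤ n * n := mul_le_mul_of_nonneg_left hbn hn0
    have h5 : (n : ℝ) ^ 6 = n * n ^ 5 := by ring
    nlinarith
  have hn1 : (2 : ℝ) ≤ n := by
    have : (2 : ℝ) ≤ 10 ^ 10 := by norm_num
    linarith
  have hn2 : (4 : ℝ) ≤ (n : ℝ) ^ 2 := by nlinarith
  have hn4 : (n : ℝ) ^ 2 ≤ (n : ℝ) ^ 4 := pow_le_pow_right₀ (by linarith) (by norm_num)
  have hn6 : 4 * (n : ℝ) ^ 4 ≤ (n : ℝ) ^ 6 := by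
    have h3 : (n : ℝ) ^ 6 = n ^ 2 * n ^ 4 := by ring
    rw [h3]
    exact mul_le_mul_of_nonneg_right hn2 (by positivity)
  have hM2 : (n : ℝ) ^ 4 + (n : ℝ) ^ 2 ≤ M := by linarith
  have hM3 : (n : ℝ) ^ 2 * b ^ 2 ≤ M := by
    have h3 : (b : ℝ) ^ 2 ≤ n ^ 2 := pow_le_pow_left₀ hb0 hbn 2
    have h4 : (n : ℝ) ^ 2 * b ^ 2 ≤ n ^ 2 * n ^ 2 := mul_le_mul_of_nonneg_left h3 (by positivity)
    have h5 : (n : ℝ) ^ 2 * n ^ 2 = n ^ 4 := by ring
    have h6 : (0 : ℝ) ≤ (n : ℝ) ^ 2 := by positivity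
    linarith
  have hM6 : (6 : ℝ) ≤ M := by nlinarith
  have hnQ : (n : ℝ) * Q ≤ M ^ 2 + n ^ 2 * b ^ 2 := by
    have h3 : (n : ℝ) * (Q + n * m ^ 2) ≤ n * (2 * m * M + n * b ^ 2) :=
      mul_le_mul_of_nonneg_left h1' hn0
    nlinarith [sq_nonneg ((n : ℝ) * m - M)]
  have hM0 : (0 : ℝ) ≤ M := by positivity
  set r := Real.sqrt n with hr
  have hr2 : r ^ 2 = n := Real.sq_sqrt hn0
  have hr0 : 0 ≤ r := Real.sqrt_nonneg _
  have hr5 : (10 : ℝ) ^ 5 ≤ r := by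
    rw [hr]
    apply Real.le_sqrt_of_sq_le
    have h3 : ((10 : ℝ) ^ 5) ^ 2 = (10 : ℝ) ^ 10 := by norm_num
    rw [h3]
    exact h10'
  have hsr : 5 * (s : ℝ) ≤ r := by
    have h3 : (5 * (s : ℝ)) ^ 2 ≤ r ^ 2 := by rw [hr2]; linarith
    exact (pow_le_pow_iff_left₀ (by positivity) hr0 (by norm_num)).mp h3
  have hmain : r * (2 * d + 1) ≤ 2 * M + n + 1 := by
    have h3 : (r * (2 * (d : ℝ) + 1)) ^ 2 ≤ (2 * (M : ℝ) + n + 1) ^ 2 := by
      rw [mul_pow, hr2]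
      have h4 : (2 * (d : ℝ) + 1) ^ 2 ≤ 4 * Q + 4 * M + 1 := by nlinarith
      have h5 : (n : ℝ) * (2 * (d : ℝ) + 1) ^ 2 ≤ n * (4 * Q + 4 * M + 1) :=
        mul_le_mul_of_nonneg_left h4 hn0
      nlinarith [sq_nonneg (n : ℝ)]
    exact (pow_le_pow_iff_left₀ (by positivity) (by positivity) (by norm_num)).mp h3
  have hY : r * d < M + 2 * j - 6 := by
    have h3 : (10 : ℝ) ^ 5 = 100000 := by norm_num
    rw [h3] at hr5
    linarith
  have hY0 : 0 ≤ r * d := by positivity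
  have h7 : (r * d) ^ 2 < ((M : ℝ) + 2 * j - 6) ^ 2 := pow_lt_pow_left₀ hY hY0 (by norm_num)
  rw [mul_pow, hr2] at h7
  have h8 : 6 ≤ M + 2 * j := by
    have : 6 ≤ M := by exact_mod_cast hM6
    omega
  have h9 : (((M + 2 * j - 6 : ℕ)) : ℝ) = (M : ℝ) + 2 * j - 6 := by
    rw [Nat.cast_sub h8]
    push_cast
    ring
  rw [← h9] at h7
  exact_mod_cast h7

end Pool.Agent.Helper24.UC.EMN
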