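import Pool.Agent.Helper27.UC.Goals

/-!
PROJECT UC (MP_d3128a_ag), packet FOUR (helper24): the four points `(±1, ±1)`.
-/

set_option autoImplicit false

noncomputable section

namespace Pool.Agent.Helper24.UC.FOUR

open Polynomial Module Pool.Agent.Helper97.Tate Pool.Agent.Helper27.UC

variable {K : Type} [Field K]

lemma hext {B : Type} [CommRing B] [Algebra K B] {φ ψ : R2 K →ₐ[K] B}
    (h1 : φ (C X) = ψ (C X)) (h2 : φ X = ψ X) : φ = ψ := by
  apply Polynomial.algHom_ext' _ h2
  apply Polynomial.algHom_ext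
  simpa using h1

lemma subt_CX (A B : R2 K) : subt A B (C X) = A := by
  unfold subt
  simp

lemma subt_X (A B : R2 K) : subt A B X = B := by
  unfold subt
  simp

lemma sh_CX (u v : K) : sh u v (C X) = C X + C (C u) := subt_CX _ _

lemma sh_X (u v : K) : sh u v X = X + C (C v) := subt_X _ _

lemma sh_CC (u v a : K) : sh u v (C (C a)) = C (C a) := by
  have : (C (C a) : R2 K) = algebraMap K (R2 K) a := rfl
  rw [this, AlgHom.commutes]

/-- the value at `s = 0` of a translate -/
lemma sh_coeff_zero (e e' : K) (f : R2 K) :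
    (sh e e' f).coeff 0 = (f.eval (C e')).comp (X + C e) := by
  have key : ((Polynomial.aeval (0 : K[X])).restrictScalars K).comp (sh e e') =
      ((Polynomial.aeval (X + C e) : K[X] →ₐ[K] K[X])).comp
        ((Polynomial.aeval (C e' : K[X])).restrictScalars K) := by
    apply hext
    · simp [sh_CX]
    · simp [sh_X]
  have h2 := DFunLike.congr_fun key f
  simp only [AlgHom.comp_apply, AlgHom.restrictScalars_apply] at h2
  rw [Polynomial.coeff_zero_eq_eval_zero]
  rw [Polynomial.comp]
  simpa [Polynomial.aeval_def, Polynomial.eval₂_eq_eval_map] using h2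


/-! ### Part A: degree less than `2 m` -/

lemma coeff_eval (c : K) (f : R2 K) (i : ℕ) :
    (f.eval (C c)).coeff i = ∑ j ∈ Finset.range (f.natDegree + 1), cof i j f * c ^ j := by
  rw [Polynomial.eval_eq_sum_range, Polynomial.finsetSum_coeff]
  refine Finset.sum_congr rfl fun j _ => ?_
  rw [← C_pow, Polynomial.coeff_mul_C]
  rfl

lemma pow_dvd_of_comp {P : K[X]} {e : K} {n : ℕ}
    (h : ∀ i < n, (P.comp (X + C e)).coeff i = 0) : (X - C e) ^ n ∣ P := by
  have h1 : X ^ n ∣ P.comp (X + C e) := Polynomial.X_pow_dvd_iff.mpr h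
  obtain ⟨Q, hQ⟩ := h1
  have h2 : P = (P.comp (X + C e)).comp (X - C e) := by
    rw [Polynomial.comp_assoc]
    simp
  rw [h2, hQ, Polynomial.mul_comp]
  simp

lemma eval_zero [CharZero K] (m : ℕ) (f : R2 K) (e' : K)
    (hd : ∀ i j, 2 * (m + 1) ≤ i + j → cof i j f = 0)
    (h1 : sh 1 e' f ∈ Od (m + 1)) (h2 : sh (-1) e' f ∈ Od (m + 1)) :
    f.eval (C e') = 0 := by
  set P := f.eval (C e') with hP
  have hdeg : P.degree < (2 * (m + 1) : ℕ) := by
    rw [Polynomial.degree_lt_iff_coeff_zero]
    intro i hi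
    rw [hP, coeff_eval]
    refine Finset.sum_eq_zero fun j _ => ?_
    rw [hd i j (by omega), zero_mul]
  have hco : ∀ e : K, sh e e' f ∈ Od (m + 1) → (X - C e) ^ (m + 1) ∣ P := by
    intro e he
    apply pow_dvd_of_comp
    intro i hi
    have := he i 0 (by omega)
    unfold cof at this
    rwa [sh_coeff_zero] at this
  have hcop : IsCoprime ((X - C (1 : K)) ^ (m + 1)) ((X - C (-1 : K)) ^ (m + 1)) := by
    apply IsCoprime.pow
    refine ⟨C (-(1 / 2)), C (1 / 2), ?_⟩
    have h22 : (C (1 / 2 : K) : K[X]) * 2 = 1 := by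
      have h23 : (2 : K[X]) = C 2 := (map_ofNat C 2).symm
      rw [h23, ← C_mul]
      norm_num
    rw [C_neg, C_neg, map_one C]
    linear_combination h22
  have hdvd := hcop.mul_dvd (hco 1 h1) (hco (-1) h2)
  apply Polynomial.eq_zero_of_dvd_of_degree_lt hdvd
  have hdd : ((X - C (1 : K)) ^ (m + 1) * (X - C (-1 : K)) ^ (m + 1)).degree =
      ((2 * (m + 1) : ℕ) : WithBot ℕ) := by
    rw [Polynomial.degree_mul, Polynomial.degree_pow, Polynomial.degree_pow,
      Polynomial.degree_X_sub_C, Polynomial.degree_X_sub_C]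
    rw [two_mul]
    push_cast
    simp
  rw [hdd]
  exact hdeg

lemma cof_sub (i j : ℕ) (f g : R2 K) : cof i j (f - g) = cof i j f - cof i j g := by
  unfold cof
  rw [Polynomial.coeff_sub, Polynomial.coeff_sub]

lemma cof_add (i j : ℕ) (f g : R2 K) : cof i j (f + g) = cof i j f + cof i j g := by
  unfold cof
  rw [Polynomial.coeff_add, Polynomial.coeff_add]

lemma cof_X_mul_zero (i : ℕ) (f : R2 K) : cof i 0 (X * f) = 0 := by
  unfold cof
  simp

lemma cof_X_mul_succ (i j : ℕ) (f : R2 K) : cof i (j + 1) (X * f) = cof i j f := by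
  unfold cof
  rw [Polynomial.coeff_X_mul]

lemma cof_CC_mul (i j : ℕ) (a : K) (f : R2 K) : cof i j (C (C a) * f) = a * cof i j f := by
  unfold cof
  rw [Polynomial.coeff_C_mul, Polynomial.coeff_C_mul]

lemma cof_CX_mul_zero (j : ℕ) (f : R2 K) : cof 0 j (C X * f) = 0 := by
  unfold cof
  rw [Polynomial.coeff_C_mul]
  simp

lemma cof_CX_mul_succ (i j : ℕ) (f : R2 K) : cof (i + 1) j (C X * f) = cof i j f := by
  unfold cof
  rw [Polynomial.coeff_C_mul, Polynomial.coeff_X_mul]

lemma cof_ext {f g : R2 K} (h : ∀ i j, cof i j f = cof i j g) : f = g := by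
  ext j i
  exact h i j

/-- the multiplicity of `g` at the point when `f = (s ^ 2 - 1) g` -/
lemma mult_g [CharZero K] (m : ℕ) (g : R2 K) (e e' : K) (he' : e' = 1 ∨ e' = -1)
    (h : sh e e' ((X ^ 2 - 1) * g) ∈ Od (m + 1)) : sh e e' g ∈ Od m := by
  set G := sh e e' g with hG
  have hsq : e' * e' = 1 := by
    rcases he' with rfl | rfl <;> norm_num
  have hne : (2 * e' : K) ≠ 0 := by
    rcases he' with rfl | rfl <;> norm_num
  have hf : sh e e' ((X ^ 2 - 1) * g) = X * (X * G + C (C (2 * e')) * G) := by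
    rw [map_mul, map_sub, map_pow, map_one, sh_X]
    have h1 : (C (C e') : R2 K) * C (C e') = 1 := by
      rw [← C_mul, ← C_mul, hsq]
      simp
    have h2 : (C (C (2 * e')) : R2 K) = 2 * C (C e') := by
      rw [C_mul, C_mul, map_ofNat C 2, map_ofNat C 2]
    rw [h2]
    linear_combination G * h1
  rw [hf] at h
  intro i j hij
  induction j with
  | zero =>
    have := h i 1 (by omega)
    rw [cof_X_mul_succ, cof_add, cof_X_mul_zero, cof_CC_mul, zero_add] at this
    exact (mul_eq_zero.mp this).resolve_left hne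
  | succ j ih =>
    have := h i (j + 2) (by omega)
    rw [cof_X_mul_succ, cof_add, cof_X_mul_succ, cof_CC_mul, ih (by omega), zero_add] at this
    exact (mul_eq_zero.mp this).resolve_left hne

lemma deg_g (n : ℕ) (g : R2 K) (h : ∀ i j, n + 2 ≤ i + j → cof i j ((X ^ 2 - 1) * g) = 0) :
    ∀ i j, n ≤ i + j → cof i j g = 0 := by
  have h1 : ∀ i j, n ≤ i + j → cof i j g = cof i (j + 2) g := by
    intro i j hij
    have h2 := h i (j + 2) (by omega)
    have h3 : (X ^ 2 - 1) * g = X * (X * g) - g := by ring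
    rw [h3, cof_sub, cof_X_mul_succ, cof_X_mul_succ] at h2
    exact sub_eq_zero.mp h2
  have h2 : ∀ k i j, n ≤ i + j → cof i j g = cof i (j + 2 * k) g := by
    intro k
    induction k with
    | zero => intro i j _; rfl
    | succ k ih =>
      intro i j hij
      rw [ih i j hij, h1 i (j + 2 * k) (by omega)]
      rfl
  intro i j hij
  rw [h2 (g.natDegree + 1) i j hij]
  unfold cof
  have h3 : g.coeff (j + 2 * (g.natDegree + 1)) = 0 :=
    Polynomial.coeff_eq_zero_of_natDegree_lt (by omega)
  rw [h3, Polynomial.coeff_zero]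

lemma partA [CharZero K] (m : ℕ) : ∀ f : R2 K,
    (∀ e e' : K, (e = 1 ∨ e = -1) → (e' = 1 ∨ e' = -1) → sh e e' f ∈ Od m) →
    (∀ i j, 2 * m ≤ i + j → cof i j f = 0) → f = 0 := by
  induction m with
  | zero =>
    intro f _ h
    apply cof_ext
    intro i j
    rw [h i j (by omega)]
    unfold cof
    simp
  | succ m ih =>
    intro f hm hd
    have hz : ∀ e' : K, (e' = 1 ∨ e' = -1) → f.eval (C e') = 0 := by
      intro e' he'
      exact eval_zero m f e' hd (hm 1 e' (Or.inl rfl) he') (hm (-1) e' (Or.inr rfl) he')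
    obtain ⟨f1, hf1⟩ := Polynomial.dvd_iff_isRoot.mpr (hz 1 (Or.inl rfl))
    have h2 : f1.eval (C (-1)) = 0 := by
      have h3 := hz (-1) (Or.inr rfl)
      rw [hf1, Polynomial.eval_mul] at h3
      refine (mul_eq_zero.mp h3).resolve_left ?_
      rw [Polynomial.eval_sub, Polynomial.eval_X, Polynomial.eval_C, ← C_sub]
      intro h4
      rw [Polynomial.C_eq_zero] at h4
      norm_num at h4
    obtain ⟨g, hg⟩ := Polynomial.dvd_iff_isRoot.mpr h2
    have hfg : f = (X ^ 2 - 1) * g := by
      rw [hf1, hg]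
      simp only [map_one, map_neg]
      ring
    have hg0 : g = 0 := by
      apply ih g
      · intro e e' he he'
        apply mult_g m g e e' he'
        rw [← hfg]
        exact hm e e' he he'
      · apply deg_g
        intro i j hij
        rw [← hfg]
        exact hd i j (by omega)
    rw [hfg, hg0, mul_zero]

/-! ### Part B: degree at most `2 m` -/

/-- the substitution `t ↦ -t` -/
def sg : R2 K →ₐ[K] R2 K :=
  Polynomial.mapAlgHom (Polynomial.aeval (C (-1) * X : K[X]) : K[X] →ₐ[K] K[X])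

lemma cof_sg (i j : ℕ) (f : R2 K) : cof i j (sg f) = (-1) ^ i * cof i j f := by
  unfold cof sg
  rw [Polynomial.coe_mapAlgHom, Polynomial.coeff_map]
  have : ((Polynomial.aeval (C (-1) * X : K[X]) : K[X] →ₐ[K] K[X]) : K[X] →+* K[X]) (f.coeff j) =
      (f.coeff j).comp (C (-1) * X) := by
    rw [Polynomial.comp]
    rfl
  rw [this, Polynomial.comp_C_mul_X_coeff, mul_comm]

lemma sg_CX : sg (C X : R2 K) = -(C X : R2 K) := by
  unfold sg
  simp

lemma sg_X : sg (X : R2 K) = X := by
  unfold sg
  simp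

lemma sg_CC (a : K) : sg (C (C a) : R2 K) = C (C a) := by
  have : (C (C a) : R2 K) = algebraMap K (R2 K) a := rfl
  rw [this, AlgHom.commutes]

lemma sh_sg (e e' : K) (f : R2 K) : sh e e' (sg f) = sg (sh (-e) e' f) := by
  have key : (sh e e').comp sg = (sg).comp (sh (-e) e') := by
    apply hext
    · rw [AlgHom.comp_apply, AlgHom.comp_apply, sg_CX, map_neg, sh_CX, sh_CX, map_add, sg_CX, sg_CC]
      simp only [map_neg]
      ring
    · rw [AlgHom.comp_apply, AlgHom.comp_apply, sg_X, sh_X, sh_X, map_add, sg_X, sg_CC]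
  exact DFunLike.congr_fun key f

lemma sg_mem (m : ℕ) (f : R2 K) (h : f ∈ Od m) : sg f ∈ Od m := by
  intro i j hij
  rw [cof_sg, h i j hij, mul_zero]

lemma mult_k (m : ℕ) (k : R2 K) (e e' : K) (he : e ≠ 0)
    (h : sh e e' (C X * k) ∈ Od m) : sh e e' k ∈ Od m := by
  set G := sh e e' k with hG
  have hf : sh e e' (C X * k) = C X * G + C (C e) * G := by
    rw [map_mul, sh_CX]
    ring
  rw [hf] at h
  intro i
  induction i with
  | zero =>
    intro j hij
    have := h 0 j hij
    rw [cof_add, cof_CX_mul_zero, cof_CC_mul, zero_add] at this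
    exact (mul_eq_zero.mp this).resolve_left he
  | succ i ih =>
    intro j hij
    have := h (i + 1) j hij
    rw [cof_add, cof_CX_mul_succ, cof_CC_mul, ih j (by omega), zero_add] at this
    exact (mul_eq_zero.mp this).resolve_left he

lemma partB [CharZero K] (m : ℕ) (f : R2 K)
    (hm : ∀ e e' : K, (e = 1 ∨ e = -1) → (e' = 1 ∨ e' = -1) → sh e e' f ∈ Od m)
    (hd : f ∈ De (2 * m)) : ∀ i j, Odd i → cof i j f = 0 := by
  have hdv : (C X : R2 K) ∣ f - sg f := by
    rw [Polynomial.C_dvd_iff_dvd_coeff]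
    intro j
    rw [Polynomial.X_dvd_iff]
    have := cof_sub 0 j f (sg f)
    rw [cof_sg, pow_zero, one_mul, sub_self] at this
    exact this
  obtain ⟨k, hk⟩ := hdv
  have hk0 : k = 0 := by
    apply partA m k
    · intro e e' he he'
      have hne : e ≠ 0 := by
        rcases he with rfl | rfl <;> norm_num
      apply mult_k m k e e' hne
      rw [← hk, map_sub, sh_sg]
      apply Submodule.sub_mem
      · exact hm e e' he he'
      · apply sg_mem
        apply hm (-e) e' _ he'
        rcases he with rfl | rfl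
        · exact Or.inr rfl
        · left
          norm_num
    · intro i j hij
      have h1 : cof (i + 1) j (C X * k) = cof i j k := cof_CX_mul_succ i j k
      rw [← h1, ← hk, cof_sub, cof_sg, hd (i + 1) j (by omega)]
      ring
  intro i j hi
  rw [hk0, mul_zero] at hk
  have h1 := cof_sub i j f (sg f)
  rw [hk, cof_sg, hi.neg_one_pow] at h1
  have h2 : cof i j (0 : R2 K) = 0 := by
    unfold cof
    simp
  rw [h2] at h1
  have h3 : (2 : K) * cof i j f = 0 := by linear_combination -h1
  exact (mul_eq_zero.mp h3).resolve_left two_ne_zero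

theorem t : S_FOUR := by
  intro K _ _ m f hm
  exact ⟨fun hd => partB m f hm hd, fun hd => partA m f hm hd⟩

end Pool.Agent.Helper24.UC.FOUR
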